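import Pool.Agent.Helper15_SIQ.Stmts

/-!
# SIQ, EQV: weak and strong positivity agree in dimension 3
-/

set_option autoImplicit false

open Filter Topology

namespace Pool.Agent.SIQ.H18

open Pool.Agent.SIU

/-! ### Hermitian matrices of `(1, 1)`-forms -/

/-- the standard basis -/
noncomputable def ee (j : Fin 3) : C3 := Pi.single j 1

/-- real bilinear alternating forms, invariant under `J` -/
structure JB (b : C3 → C3 → ℝ) : Prop where
  add : ∀ x x' y, b (x + x') y = b x y + b x' y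
  smul : ∀ (t : ℝ) x y, b (t • x) y = t * b x y
  skew : ∀ x y, b x y = - b y x
  J : ∀ x y, b (Complex.I • x) (Complex.I • y) = b x y

/-- the Hermitian matrix -/
noncomputable def hm (b : C3 → C3 → ℝ) (j k : Fin 3) : ℂ :=
  ⟨b (ee j) (Complex.I • ee k), b (ee j) (ee k)⟩

theorem JB.add' {b : C3 → C3 → ℝ} (h : JB b) (x y y' : C3) : b x (y + y') = b x y + b x y' := by
  rw [h.skew, h.add, h.skew y, h.skew y']
  ring

theorem JB.smul' {b : C3 → C3 → ℝ} (h : JB b) (t : ℝ) (x y : C3) : b x (t • y) = t * b x y := by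
  rw [h.skew, h.smul, h.skew y]
  ring

theorem JB.zero {b : C3 → C3 → ℝ} (h : JB b) (y : C3) : b 0 y = 0 := by
  have := h.smul 0 0 y
  rw [zero_smul, zero_mul] at this
  exact this

theorem JB.zero' {b : C3 → C3 → ℝ} (h : JB b) (y : C3) : b y 0 = 0 := by
  rw [h.skew, h.zero, neg_zero]

theorem JB.sum {b : C3 → C3 → ℝ} (h : JB b) (f : Fin 3 → C3) (y : C3) :
    b (∑ j, f j) y = ∑ j, b (f j) y := by
  rw [Fin.sum_univ_three, Fin.sum_univ_three, h.add, h.add]

theorem JB.sum' {b : C3 → C3 → ℝ} (h : JB b) (f : Fin 3 → C3) (y : C3) :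
    b y (∑ j, f j) = ∑ j, b y (f j) := by
  rw [Fin.sum_univ_three, Fin.sum_univ_three, h.add', h.add']

theorem JB.self {b : C3 → C3 → ℝ} (h : JB b) (x : C3) : b x x = 0 := by
  have := h.skew x x
  linarith

theorem JB.J' {b : C3 → C3 → ℝ} (h : JB b) (x y : C3) :
    b (Complex.I • x) y = - b x (Complex.I • y) := by
  have h1 := h.J x (Complex.I • y)
  rw [smul_smul, Complex.I_mul_I] at h1
  have h2 : ((-1 : ℂ) • y) = (-1 : ℝ) • y := by
    rw [neg_one_smul, neg_one_smul]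
  rw [h2, h.smul'] at h1
  linarith

theorem smul_c (α : ℂ) (x : C3) : α • x = α.re • x + α.im • (Complex.I • x) := by
  funext m
  show α * x m = α.re • x m + α.im • (Complex.I • x m)
  rw [Complex.real_smul, Complex.real_smul, smul_eq_mul]
  conv_lhs => rw [← Complex.re_add_im α]
  ring

theorem JB.pair {b : C3 → C3 → ℝ} (h : JB b) (α β : ℂ) (x y : C3) :
    b (α • x) (β • y) =
      ((starRingEnd ℂ) α * (⟨b x (Complex.I • y), b x y⟩ : ℂ) * β).im := by
  rw [smul_c α, smul_c β, h.add, h.add', h.add', h.smul, h.smul, h.smul, h.smul, h.smul', h.smul',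
    h.smul', h.smul', h.J, h.J']
  simp only [Complex.mul_im, Complex.mul_re, Complex.conj_re, Complex.conj_im]
  ring

theorem exp3 (v : C3) : v = ∑ j, v j • ee j := by
  funext m
  rw [Finset.sum_apply]
  simp [ee, Pi.single_apply]

theorem JB.eq {b : C3 → C3 → ℝ} (h : JB b) (v w : C3) :
    b v w = (∑ j, ∑ k, (starRingEnd ℂ) (v j) * hm b j k * w k).im := by
  conv_lhs => rw [exp3 v, exp3 w]
  rw [h.sum, Complex.im_sum]
  refine Finset.sum_congr rfl fun j _ => ?_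
  rw [h.sum', Complex.im_sum]
  refine Finset.sum_congr rfl fun k _ => ?_
  rw [h.pair]
  rfl

theorem JB.herm {b : C3 → C3 → ℝ} (h : JB b) (j k : Fin 3) :
    (starRingEnd ℂ) (hm b j k) = hm b k j := by
  apply Complex.ext
  · show b (ee j) (Complex.I • ee k) = b (ee k) (Complex.I • ee j)
    rw [h.skew, h.J']
    ring
  · show - b (ee j) (ee k) = b (ee k) (ee j)
    rw [h.skew]
    ring

/-- the spectral theorem -/
theorem spec (H : Fin 3 → Fin 3 → ℂ) (hH : ∀ j k, (starRingEnd ℂ) (H j k) = H k j) :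
    ∃ (lam : Fin 3 → ℝ) (U : Fin 3 → Fin 3 → ℂ),
      (∀ j k, H j k = ∑ m, (lam m : ℂ) * (U j m * (starRingEnd ℂ) (U k m))) ∧
      ∀ m m', ∑ j, (starRingEnd ℂ) (U j m) * U j m' = if m = m' then 1 else 0 := by
  have hA : (Matrix.of H).IsHermitian := by
    ext j k
    rw [Matrix.conjTranspose_apply]
    exact hH k j
  refine ⟨hA.eigenvalues, fun j m => (hA.eigenvectorUnitary : Matrix (Fin 3) (Fin 3) ℂ) j m,
    fun j k => ?_, fun m m' => ?_⟩
  · have h1 := congrArg (fun M : Matrix (Fin 3) (Fin 3) ℂ => M j k) hA.spectral_theorem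
    rw [Unitary.conjStarAlgAut_apply] at h1
    have h2 : (Matrix.of H) j k = H j k := rfl
    simp only [h2] at h1
    rw [h1, Matrix.mul_apply]
    refine Finset.sum_congr rfl fun m _ => ?_
    rw [Matrix.mul_diagonal, Matrix.star_apply]
    show _ * ((hA.eigenvalues m : ℝ) : ℂ) * _ = _
    rw [← starRingEnd_apply]
    ring
  · have h1 := Unitary.coe_star_mul_self hA.eigenvectorUnitary
    have h2 := congrArg (fun M : Matrix (Fin 3) (Fin 3) ℂ => M m m') h1
    simp only [Matrix.mul_apply, Matrix.star_apply, Matrix.one_apply] at h2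
    exact h2

/-- linear functionals -/
noncomputable def fn (c : C3) : C3 →ₗ[ℂ] ℂ where
  toFun v := ∑ k, c k * v k
  map_add' x y := by
    rw [← Finset.sum_add_distrib]
    refine Finset.sum_congr rfl fun k _ => ?_
    rw [Pi.add_apply, mul_add]
  map_smul' t x := by
    rw [smul_eq_mul, Finset.mul_sum]
    refine Finset.sum_congr rfl fun k _ => ?_
    rw [Pi.smul_apply, smul_eq_mul]
    simp only [RingHom.id_apply]
    ring

theorem fn_apply (c v : C3) : fn c v = ∑ k, c k * v k := rfl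

/-- the row of `U^*` -/
noncomputable def rw3 (U : Fin 3 → Fin 3 → ℂ) (m : Fin 3) : C3 := fun k => (starRingEnd ℂ) (U k m)

theorem spec_form {H : Fin 3 → Fin 3 → ℂ} {lam : Fin 3 → ℝ} {U : Fin 3 → Fin 3 → ℂ}
    (h : ∀ j k, H j k = ∑ m, (lam m : ℂ) * (U j m * (starRingEnd ℂ) (U k m))) (v w : C3) :
    ∑ j, ∑ k, (starRingEnd ℂ) (v j) * H j k * w k =
      ∑ m, (lam m : ℂ) * ((starRingEnd ℂ) (fn (rw3 U m) v) * fn (rw3 U m) w) := by
  simp only [h, fn_apply, rw3, map_add, map_mul, Complex.conj_conj, Fin.sum_univ_three]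
  ring

theorem spec_unit {U : Fin 3 → Fin 3 → ℂ}
    (h : ∀ m m', ∑ j, (starRingEnd ℂ) (U j m) * U j m' = if m = m' then 1 else 0)
    (m m' : Fin 3) : fn (rw3 U m) (fun j => U j m') = if m = m' then 1 else 0 := h m m'

/-! ### degree 2 -/

theorem map_add2 (a : Alt 3 2) (x x' y : C3) : a ![x + x', y] = a ![x, y] + a ![x', y] :=
  a.toAlternatingMap.map_vecCons_add ![y] x x'

theorem map_smul2 (a : Alt 3 2) (t : ℝ) (x y : C3) : a ![t • x, y] = t * a ![x, y] :=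
  a.toAlternatingMap.map_vecCons_smul ![y] t x

theorem map_skew2 (a : Alt 3 2) (x y : C3) : a ![x, y] = - a ![y, x] := by
  have h := a.toAlternatingMap.map_swap ![y, x] (i := 0) (j := 1) (by decide)
  have h2 : (![y, x] : Fin 2 → C3) ∘ Equiv.swap 0 1 = ![x, y] := by
    funext i
    fin_cases i <;> rfl
  rw [h2] at h
  exact h

theorem jb2 (a : Alt 3 2) (ha : ∀ v, a (fun j => Complex.I • v j) = a v) :
    JB fun x y => a ![x, y] := by
  refine ⟨map_add2 a, map_smul2 a, map_skew2 a, fun x y => ?_⟩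
  have h := ha ![x, y]
  rw [← h]
  congr 1
  funext i
  fin_cases i <;> rfl

theorem eqv1 (a : Alt 3 2) (hp : ∀ v : ℕ → C3, 0 ≤ a (cvec v 2))
    (ha : ∀ v, a (fun j => Complex.I • v j) = a v) :
    ∃ (m : ℕ) (c : Fin m → ℝ) (L : Fin m → ℕ → ((Fin 3 → ℂ) →ₗ[ℂ] ℂ)), (∀ l, 0 ≤ c l) ∧
    ∀ v : Fin 2 → Fin 3 → ℂ, a v = ∑ l, c l * Matrix.det (fun i j : Fin 2 =>
      if (i : ℕ) % 2 = 0 then (L l ((i : ℕ) / 2) (v j)).re else (L l ((i : ℕ) / 2) (v j)).im) := by
  have hb := jb2 a ha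
  obtain ⟨lam, U, h1, h2⟩ := spec (hm fun x y => a ![x, y]) hb.herm
  have key : ∀ v w : C3, a ![v, w] =
      (∑ m, (lam m : ℂ) * ((starRingEnd ℂ) (fn (rw3 U m) v) * fn (rw3 U m) w)).im := by
    intro v w
    rw [← spec_form h1]
    exact hb.eq v w
  refine ⟨3, lam, fun l _ => fn (rw3 U l), fun l => ?_, fun v => ?_⟩
  · have h3 := hp (fun _ j => U j l)
    have h4 : cvec (fun _ j => U j l) 2 = ![fun j => U j l, Complex.I • fun j => U j l] := by
      funext i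
      fin_cases i <;> rfl
    rw [h4, key] at h3
    simp only [map_smul, spec_unit h2] at h3
    have h5 : (∑ m, (lam m : ℂ) * ((starRingEnd ℂ) (if m = l then (1 : ℂ) else 0) *
        Complex.I • (if m = l then (1 : ℂ) else 0))) = (lam l : ℂ) * Complex.I := by
      rw [Finset.sum_eq_single l]
      · simp
      · intro m _ hm
        simp [hm]
      · simp
    rw [h5] at h3
    simpa using h3
  · have h3 : v = ![v 0, v 1] := by
      funext i
      fin_cases i <;> rfl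
    conv_lhs => rw [h3]
    rw [key, Complex.im_sum]
    refine Finset.sum_congr rfl fun m _ => ?_
    refine Eq.trans ?_ (congrArg (fun t => lam m * t) (Matrix.det_fin_two _).symm)
    show _ = lam m * ((fn (rw3 U m) (v 0)).re * (fn (rw3 U m) (v 1)).im -
      (fn (rw3 U m) (v 1)).re * (fn (rw3 U m) (v 0)).im)
    rw [Complex.im_ofReal_mul, Complex.mul_im, Complex.conj_re, Complex.conj_im]
    ring

/-! ### determinants -/

/-- real and imaginary parts of functionals -/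
noncomputable def rL (n : ℕ) (L : ℕ → (C3 →ₗ[ℂ] ℂ)) : C3 →ₗ[ℝ] (Fin n → ℝ) where
  toFun v i := if (i : ℕ) % 2 = 0 then (L ((i : ℕ) / 2) v).re else (L ((i : ℕ) / 2) v).im
  map_add' x y := by
    funext i
    rw [Pi.add_apply]
    split_ifs <;> rw [map_add] <;> rfl
  map_smul' t x := by
    have h : ∀ M : C3 →ₗ[ℂ] ℂ, M (t • x) = (t : ℂ) * M x := by
      intro M
      have : t • x = (t : ℂ) • x := by
        funext m
        show t • x m = (t : ℂ) * x m
        rw [Complex.real_smul]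
      rw [this, map_smul, smul_eq_mul]
    funext i
    rw [Pi.smul_apply]
    simp only [h, Complex.re_ofReal_mul, Complex.im_ofReal_mul, RingHom.id_apply, smul_eq_mul]
    split_ifs <;> rfl

theorem rL_apply (n : ℕ) (L : ℕ → (C3 →ₗ[ℂ] ℂ)) (v : C3) (i : Fin n) : rL n L v i =
    if (i : ℕ) % 2 = 0 then (L ((i : ℕ) / 2) v).re else (L ((i : ℕ) / 2) v).im := rfl

/-- the determinant form -/
noncomputable def dL (n : ℕ) (L : ℕ → (C3 →ₗ[ℂ] ℂ)) : C3 [⋀^Fin n]→ₗ[ℝ] ℝ :=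
  (Matrix.detRowAlternating (n := Fin n) (R := ℝ)).compLinearMap (rL n L)

theorem dL_apply (n : ℕ) (L : ℕ → (C3 →ₗ[ℂ] ℂ)) (v : Fin n → C3) :
    dL n L v = Matrix.det (fun i j : Fin n => if (i : ℕ) % 2 = 0 then (L ((i : ℕ) / 2) (v j)).re
      else (L ((i : ℕ) / 2) (v j)).im) := by
  have h : dL n L v = Matrix.det (Matrix.of fun i => rL n L (v i)) := vola_aux _ _
  rw [h, ← Matrix.det_transpose]
  rfl

/-! ### degree 6 -/

/-- the real coordinates -/
noncomputable def rE : C3 ≃ₗ[ℝ] (Fin 6 → ℝ) :=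
  { r6 with
    invFun := fun f => ![⟨f 0, f 1⟩, ⟨f 2, f 3⟩, ⟨f 4, f 5⟩]
    left_inv := by
      intro c
      funext m
      fin_cases m <;> rfl
    right_inv := by
      intro f
      funext m
      fin_cases m <;> rfl }

/-- the real basis -/
noncomputable def bE : Module.Basis (Fin 6) ℝ C3 := Module.Basis.ofEquivFun rE

theorem bE_apply (i : Fin 6) : bE i = stdb 3 6 i := by
  have h : bE i = rE.symm (Pi.single i 1) := by
    unfold bE
    rw [Module.Basis.coe_ofEquivFun]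
  rw [h]
  show (![⟨(Pi.single i 1 : Fin 6 → ℝ) 0, (Pi.single i 1 : Fin 6 → ℝ) 1⟩,
    ⟨(Pi.single i 1 : Fin 6 → ℝ) 2, (Pi.single i 1 : Fin 6 → ℝ) 3⟩,
    ⟨(Pi.single i 1 : Fin 6 → ℝ) 4, (Pi.single i 1 : Fin 6 → ℝ) 5⟩] : C3) = _
  funext m
  unfold stdb cvec
  fin_cases i <;> fin_cases m <;> apply Complex.ext <;> simp

/-- the coordinates as functionals -/
noncomputable def co (i : ℕ) : C3 →ₗ[ℂ] ℂ := fn fun k => if (k : ℕ) = i then 1 else 0

theorem dL_std : dL 6 co (⇑bE) = 1 := by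
  rw [dL_apply]
  have h : (fun i j : Fin 6 => if (i : ℕ) % 2 = 0 then (co ((i : ℕ) / 2) (bE j)).re
      else (co ((i : ℕ) / 2) (bE j)).im) = (1 : Matrix (Fin 6) (Fin 6) ℝ) := by
    funext i j
    rw [bE_apply, Matrix.one_apply]
    unfold co
    rw [fn_apply]
    unfold stdb cvec
    fin_cases i <;> fin_cases j <;> simp [Fin.sum_univ_three]
  rw [h, Matrix.det_one]

theorem top_eq (a D : C3 [⋀^Fin 6]→ₗ[ℝ] ℝ) (h : D (⇑bE) = 1) (v : Fin 6 → C3) :
    a v = a (⇑bE) * D v := by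
  have h1 := AlternatingMap.eq_smul_basis_det bE a
  have h2 := AlternatingMap.eq_smul_basis_det bE D
  rw [h, one_smul] at h2
  rw [← h2] at h1
  calc a v = (a (⇑bE) • D) v := by rw [← h1]
    _ = _ := rfl

theorem eqv3 (a : Alt 3 6) (v : Fin 6 → C3) : a v = a (stdb 3 6) * dL 6 co v := by
  have h := top_eq a.toAlternatingMap (dL 6 co) dL_std v
  have h6 : (⇑bE) = stdb 3 6 := funext bE_apply
  rw [h6] at h
  exact h

/-! ### degree 4 -/

theorem s01 (d : C3 [⋀^Fin 4]→ₗ[ℝ] ℝ) (x y z w : C3) : d ![y, x, z, w] = - d ![x, y, z, w] := by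
  have h := d.map_swap ![x, y, z, w] (i := 0) (j := 1) (by decide)
  have h2 : (![x, y, z, w] : Fin 4 → C3) ∘ Equiv.swap 0 1 = ![y, x, z, w] := by
    funext i
    fin_cases i <;> rfl
  rw [h2] at h
  exact h

theorem s12 (d : C3 [⋀^Fin 4]→ₗ[ℝ] ℝ) (x y z w : C3) : d ![x, z, y, w] = - d ![x, y, z, w] := by
  have h := d.map_swap ![x, y, z, w] (i := 1) (j := 2) (by decide)
  have h2 : (![x, y, z, w] : Fin 4 → C3) ∘ Equiv.swap 1 2 = ![x, z, y, w] := by
    funext i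
    fin_cases i <;> rfl
  rw [h2] at h
  exact h

theorem s23 (d : C3 [⋀^Fin 4]→ₗ[ℝ] ℝ) (x y z w : C3) : d ![x, y, w, z] = - d ![x, y, z, w] := by
  have h := d.map_swap ![x, y, z, w] (i := 2) (j := 3) (by decide)
  have h2 : (![x, y, z, w] : Fin 4 → C3) ∘ Equiv.swap 2 3 = ![x, y, w, z] := by
    funext i
    fin_cases i <;> rfl
  rw [h2] at h
  exact h

/-- exchange of the pairs -/
theorem sp (d : C3 [⋀^Fin 4]→ₗ[ℝ] ℝ) (x y z w : C3) : d ![z, w, x, y] = d ![x, y, z, w] := by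
  rw [s12 d z x w y, s01 d x z w y, s23 d x z y w, s12 d x y z w]
  ring

theorem jb4 (d : C3 [⋀^Fin 4]→ₗ[ℝ] ℝ) (hd : ∀ v, d (fun j => Complex.I • v j) = d v) (e : C3) :
    JB fun x y => d ![e, Complex.I • e, x, y] := by
  refine ⟨fun x x' y => ?_, fun t x y => ?_, fun x y => s23 d _ _ _ _, fun x y => ?_⟩
  · rw [← sp d e (Complex.I • e), ← sp d e (Complex.I • e) x, ← sp d e (Complex.I • e) x']
    exact d.map_vecCons_add ![y, e, Complex.I • e] x x'
  · rw [← sp d e (Complex.I • e), ← sp d e (Complex.I • e) x]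
    exact d.map_vecCons_smul ![y, e, Complex.I • e] t x
  · show d ![e, Complex.I • e, Complex.I • x, Complex.I • y] = d ![e, Complex.I • e, x, y]
    have h := hd ![(-1 : ℝ) • (Complex.I • e), e, x, y]
    have h1 : (fun j => Complex.I • (![(-1 : ℝ) • (Complex.I • e), e, x, y] : Fin 4 → C3) j) =
        ![e, Complex.I • e, Complex.I • x, Complex.I • y] := by
      funext j
      fin_cases j
      · show Complex.I • ((-1 : ℝ) • (Complex.I • e)) = e
        rw [smul_comm, smul_smul, Complex.I_mul_I, neg_one_smul, neg_one_smul, neg_neg]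
      · rfl
      · rfl
      · rfl
    rw [h1] at h
    rw [h]
    have h2 : d ![(-1 : ℝ) • (Complex.I • e), e, x, y] =
        (-1 : ℝ) * d ![Complex.I • e, e, x, y] := d.map_vecCons_smul ![e, x, y] (-1) _
    rw [h2, s01 d e (Complex.I • e) x y]
    ring

/-- the real basis by pairs -/
noncomputable def bP : Module.Basis (Σ _ : Fin 3, Fin 2) ℝ C3 :=
  Pi.basis fun _ => Complex.basisOneI

theorem bP0 (l : Fin 3) : bP ⟨l, 0⟩ = ee l := by
  unfold bP ee
  rw [Pi.basis_apply, Complex.coe_basisOneI]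
  rfl

theorem bP1 (l : Fin 3) : bP ⟨l, 1⟩ = Complex.I • ee l := by
  unfold bP ee
  rw [Pi.basis_apply, Complex.coe_basisOneI]
  funext m
  by_cases h : m = l
  · subst h
    simp
  · simp [h]

theorem ex_perm (i j : Fin 4) (h : i ≠ j) : ∃ σ : Equiv.Perm (Fin 4), σ 0 = i ∧ σ 1 = j := by
  revert i j
  decide

/-- a form of degree 4 is determined by its values on the coordinate complex lines -/
theorem ext4 (d d' : C3 [⋀^Fin 4]→ₗ[ℝ] ℝ)
    (h : ∀ l x y, d ![ee l, Complex.I • ee l, x, y] = d' ![ee l, Complex.I • ee l, x, y]) :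
    d = d' := by
  apply Module.Basis.ext_alternating bP
  intro v hv
  obtain ⟨i, j, hij, hl⟩ := Fintype.exists_ne_map_eq_of_card_lt (fun i => (v i).1) (by simp)
  obtain ⟨i, j, l, hij, hi, hj⟩ : ∃ (i j : Fin 4) (l : Fin 3), i ≠ j ∧ v i = ⟨l, 0⟩ ∧
      v j = ⟨l, 1⟩ := by
    have hne : (v i).2 ≠ (v j).2 := by
      intro h2
      apply hij
      apply hv
      exact Sigma.ext hl (heq_of_eq h2)
    obtain ⟨p, s⟩ : ∃ p, (v i).2 = p := ⟨_, rfl⟩
    rcases (show (v i).2 = 0 ∧ (v j).2 = 1 ∨ (v i).2 = 1 ∧ (v j).2 = 0 by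
      revert hne
      generalize (v i).2 = p
      generalize (v j).2 = p'
      revert p p'
      decide) with ⟨h1, h2⟩ | ⟨h1, h2⟩
    · exact ⟨i, j, (v i).1, hij, Sigma.ext rfl (heq_of_eq h1), Sigma.ext hl.symm (heq_of_eq h2)⟩
    · exact ⟨j, i, (v i).1, hij.symm, Sigma.ext hl.symm (heq_of_eq h2),
        Sigma.ext rfl (heq_of_eq h1)⟩
  obtain ⟨σ, h0, h1⟩ := ex_perm i j hij
  rw [d.map_congr_perm (fun i => bP (v i)) σ, d'.map_congr_perm (fun i => bP (v i)) σ]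
  congr 1
  have h2 : (fun i => bP (v i)) ∘ σ =
      ![ee l, Complex.I • ee l, bP (v (σ 2)), bP (v (σ 3))] := by
    funext m
    fin_cases m
    · show bP (v (σ 0)) = ee l
      rw [h0, hi, bP0]
    · show bP (v (σ 1)) = Complex.I • ee l
      rw [h1, hj, bP1]
    · rfl
    · rfl
  rw [h2]
  exact h l _ _

theorem det4 (M : Fin 4 → Fin 4 → ℝ) : Matrix.det M =
    M 0 0 * (M 1 1 * (M 2 2 * M 3 3 - M 2 3 * M 3 2) - M 1 2 * (M 2 1 * M 3 3 - M 2 3 * M 3 1) +
      M 1 3 * (M 2 1 * M 3 2 - M 2 2 * M 3 1)) -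
    M 0 1 * (M 1 0 * (M 2 2 * M 3 3 - M 2 3 * M 3 2) - M 1 2 * (M 2 0 * M 3 3 - M 2 3 * M 3 0) +
      M 1 3 * (M 2 0 * M 3 2 - M 2 2 * M 3 0)) +
    M 0 2 * (M 1 0 * (M 2 1 * M 3 3 - M 2 3 * M 3 1) - M 1 1 * (M 2 0 * M 3 3 - M 2 3 * M 3 0) +
      M 1 3 * (M 2 0 * M 3 1 - M 2 1 * M 3 0)) -
    M 0 3 * (M 1 0 * (M 2 1 * M 3 2 - M 2 2 * M 3 1) - M 1 1 * (M 2 0 * M 3 2 - M 2 2 * M 3 0) +
      M 1 2 * (M 2 0 * M 3 1 - M 2 1 * M 3 0)) := by
  have h := Matrix.det_succ_row_zero (Matrix.of M)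
  have h3 : ∀ j : Fin 4, ((Matrix.of M).submatrix Fin.succ j.succAbove).det =
      M 1 (j.succAbove 0) * M 2 (j.succAbove 1) * M 3 (j.succAbove 2) -
      M 1 (j.succAbove 0) * M 2 (j.succAbove 2) * M 3 (j.succAbove 1) -
      M 1 (j.succAbove 1) * M 2 (j.succAbove 0) * M 3 (j.succAbove 2) +
      M 1 (j.succAbove 1) * M 2 (j.succAbove 2) * M 3 (j.succAbove 0) +
      M 1 (j.succAbove 2) * M 2 (j.succAbove 0) * M 3 (j.succAbove 1) -
      M 1 (j.succAbove 2) * M 2 (j.succAbove 1) * M 3 (j.succAbove 0) := by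
    intro j
    rw [Matrix.det_fin_three]
    rfl
  simp only [h3] at h
  rw [Fin.sum_univ_four] at h
  refine h.trans ?_
  have e00 : (0 : Fin 4).succAbove 0 = 1 := rfl
  have e01 : (0 : Fin 4).succAbove 1 = 2 := rfl
  have e02 : (0 : Fin 4).succAbove 2 = 3 := rfl
  have e10 : (1 : Fin 4).succAbove 0 = 0 := rfl
  have e11 : (1 : Fin 4).succAbove 1 = 2 := rfl
  have e12 : (1 : Fin 4).succAbove 2 = 3 := rfl
  have e20 : (2 : Fin 4).succAbove 0 = 0 := rfl
  have e21 : (2 : Fin 4).succAbove 1 = 1 := rfl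
  have e22 : (2 : Fin 4).succAbove 2 = 3 := rfl
  have e30 : (3 : Fin 4).succAbove 0 = 0 := rfl
  have e31 : (3 : Fin 4).succAbove 1 = 1 := rfl
  have e32 : (3 : Fin 4).succAbove 2 = 2 := rfl
  rw [e00, e01, e02, e10, e11, e12, e20, e21, e22, e30, e31, e32]
  show (-1) ^ 0 * M 0 0 * _ + (-1) ^ 1 * M 0 1 * _ + (-1) ^ 2 * M 0 2 * _ + (-1) ^ 3 * M 0 3 * _ = _
  ring

/-- the determinant form of degree 4 -/
theorem dL4 (L : ℕ → (C3 →ₗ[ℂ] ℂ)) (e x y : C3) : dL 4 L ![e, Complex.I • e, x, y] =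
    ((starRingEnd ℂ) (L 0 e * L 1 x - L 0 x * L 1 e) * (L 0 e * L 1 y - L 0 y * L 1 e)).im := by
  rw [dL_apply, det4]
  show (L 0 e).re * ((L 0 (Complex.I • e)).im * ((L 1 x).re * (L 1 y).im - (L 1 y).re * (L 1 x).im) -
    (L 0 x).im * ((L 1 (Complex.I • e)).re * (L 1 y).im - (L 1 y).re * (L 1 (Complex.I • e)).im) +
      (L 0 y).im * ((L 1 (Complex.I • e)).re * (L 1 x).im - (L 1 x).re * (L 1 (Complex.I • e)).im)) -
    (L 0 (Complex.I • e)).re * ((L 0 e).im * ((L 1 x).re * (L 1 y).im - (L 1 y).re * (L 1 x).im) -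
    (L 0 x).im * ((L 1 e).re * (L 1 y).im - (L 1 y).re * (L 1 e).im) +
      (L 0 y).im * ((L 1 e).re * (L 1 x).im - (L 1 x).re * (L 1 e).im)) +
    (L 0 x).re * ((L 0 e).im * ((L 1 (Complex.I • e)).re * (L 1 y).im -
        (L 1 y).re * (L 1 (Complex.I • e)).im) -
    (L 0 (Complex.I • e)).im * ((L 1 e).re * (L 1 y).im - (L 1 y).re * (L 1 e).im) +
      (L 0 y).im * ((L 1 e).re * (L 1 (Complex.I • e)).im - (L 1 (Complex.I • e)).re * (L 1 e).im)) -
    (L 0 y).re * ((L 0 e).im * ((L 1 (Complex.I • e)).re * (L 1 x).im -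
        (L 1 x).re * (L 1 (Complex.I • e)).im) -
    (L 0 (Complex.I • e)).im * ((L 1 e).re * (L 1 x).im - (L 1 x).re * (L 1 e).im) +
      (L 0 x).im * ((L 1 e).re * (L 1 (Complex.I • e)).im - (L 1 (Complex.I • e)).re * (L 1 e).im)) = _
  rw [map_smul, map_smul]
  generalize L 0 e = a1
  generalize L 0 x = a2
  generalize L 0 y = a3
  generalize L 1 e = b1
  generalize L 1 x = b2
  generalize L 1 y = b3
  simp only [smul_eq_mul, Complex.mul_im, Complex.mul_re, Complex.conj_re, Complex.conj_im,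
    Complex.sub_re, Complex.sub_im, Complex.I_re, Complex.I_im]
  ring

/-- the cross product -/
noncomputable def cr (x y : C3) : C3 :=
  ![x 1 * y 2 - x 2 * y 1, x 2 * y 0 - x 0 * y 2, x 0 * y 1 - x 1 * y 0]

theorem cr_surj (c : C3) : ∃ x y : C3, cr x y = c := by
  by_cases h : c 0 = 0
  · refine ⟨![1, 0, 0], ![0, c 2, - c 1], ?_⟩
    funext m
    fin_cases m <;> simp [cr, h]
  · refine ⟨![-(c 1 / c 0), 1, 0], ![-c 2, 0, c 0], ?_⟩
    funext m
    fin_cases m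
    · simp [cr]
    · simp [cr, h]
    · simp [cr]

theorem cr_ident (p q x y : C3) : fn p x * fn q y - fn p y * fn q x = fn (cr p q) (cr x y) := by
  simp only [fn_apply, Fin.sum_univ_three, cr]
  show _ = (p 1 * q 2 - p 2 * q 1) * (x 1 * y 2 - x 2 * y 1) +
    (p 2 * q 0 - p 0 * q 2) * (x 2 * y 0 - x 0 * y 2) + (p 0 * q 1 - p 1 * q 0) * (x 0 * y 1 - x 1 * y 0)
  ring

/-- the three Hermitian matrices -/
noncomputable def hl (d : C3 [⋀^Fin 4]→ₗ[ℝ] ℝ) (l : Fin 3) : Fin 3 → Fin 3 → ℂ :=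
  hm fun x y => d ![ee l, Complex.I • ee l, x, y]

/-- the Hermitian matrix of a form of bidegree `(2, 2)` -/
noncomputable def hH (d : C3 [⋀^Fin 4]→ₗ[ℝ] ℝ) : Fin 3 → Fin 3 → ℂ :=
  ![![hl d 1 2 2, - hl d 2 1 0, - hl d 1 2 0], ![- hl d 2 0 1, hl d 2 0 0, - hl d 0 2 1],
    ![- hl d 1 0 2, - hl d 0 1 2, hl d 0 1 1]]

theorem hl_l (d : C3 [⋀^Fin 4]→ₗ[ℝ] ℝ) (l k : Fin 3) : hl d l l k = 0 := by
  unfold hl hm
  apply Complex.ext
  · exact d.map_eq_zero_of_eq _ (i := 0) (j := 2) rfl (by decide)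
  · exact d.map_eq_zero_of_eq _ (i := 0) (j := 2) rfl (by decide)

theorem hl_herm {d : C3 [⋀^Fin 4]→ₗ[ℝ] ℝ} (hd : ∀ v, d (fun j => Complex.I • v j) = d v)
    (l j k : Fin 3) : (starRingEnd ℂ) (hl d l j k) = hl d l k j := (jb4 d hd (ee l)).herm j k

theorem hl_r {d : C3 [⋀^Fin 4]→ₗ[ℝ] ℝ} (hd : ∀ v, d (fun j => Complex.I • v j) = d v)
    (l k : Fin 3) : hl d l k l = 0 := by
  rw [← hl_herm hd, hl_l, map_zero]

theorem hl_diag (d : C3 [⋀^Fin 4]→ₗ[ℝ] ℝ) (l k : Fin 3) : hl d l k k = hl d k l l := by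
  unfold hl hm
  apply Complex.ext
  · exact (sp d _ _ _ _).symm
  · have h1 : d ![ee l, Complex.I • ee l, ee k, ee k] = 0 :=
      d.map_eq_zero_of_eq _ (i := 2) (j := 3) rfl (by decide)
    have h2 : d ![ee k, Complex.I • ee k, ee l, ee l] = 0 :=
      d.map_eq_zero_of_eq _ (i := 2) (j := 3) rfl (by decide)
    exact h1.trans h2.symm

theorem hH_herm {d : C3 [⋀^Fin 4]→ₗ[ℝ] ℝ} (hd : ∀ v, d (fun j => Complex.I • v j) = d v)
    (j k : Fin 3) : (starRingEnd ℂ) (hH d j k) = hH d k j := by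
  fin_cases j <;> fin_cases k
  · exact hl_herm hd 1 2 2
  · show (starRingEnd ℂ) (- hl d 2 1 0) = - hl d 2 0 1
    rw [map_neg, hl_herm hd]
  · show (starRingEnd ℂ) (- hl d 1 2 0) = - hl d 1 0 2
    rw [map_neg, hl_herm hd]
  · show (starRingEnd ℂ) (- hl d 2 0 1) = - hl d 2 1 0
    rw [map_neg, hl_herm hd]
  · exact hl_herm hd 2 0 0
  · show (starRingEnd ℂ) (- hl d 0 2 1) = - hl d 0 1 2
    rw [map_neg, hl_herm hd]
  · show (starRingEnd ℂ) (- hl d 1 0 2) = - hl d 1 2 0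
    rw [map_neg, hl_herm hd]
  · show (starRingEnd ℂ) (- hl d 0 1 2) = - hl d 0 2 1
    rw [map_neg, hl_herm hd]
  · exact hl_herm hd 0 1 1

theorem ee_eq (l k : Fin 3) : ee l k = if k = l then 1 else 0 := by
  unfold ee
  rw [Pi.single_apply]

theorem hl_hH {d : C3 [⋀^Fin 4]→ₗ[ℝ] ℝ} (hd : ∀ v, d (fun j => Complex.I • v j) = d v)
    (l : Fin 3) (x y : C3) : ∑ j, ∑ k, (starRingEnd ℂ) (x j) * hl d l j k * y k =
      ∑ j, ∑ k, (starRingEnd ℂ) (cr (ee l) x j) * hH d j k * cr (ee l) y k := by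
  simp only [Fin.sum_univ_three]
  have c0 : ∀ x y : C3, cr x y 0 = x 1 * y 2 - x 2 * y 1 := fun _ _ => rfl
  have c1 : ∀ x y : C3, cr x y 1 = x 2 * y 0 - x 0 * y 2 := fun _ _ => rfl
  have c2 : ∀ x y : C3, cr x y 2 = x 0 * y 1 - x 1 * y 0 := fun _ _ => rfl
  have h00 : hH d 0 0 = hl d 1 2 2 := rfl
  have h01 : hH d 0 1 = - hl d 2 1 0 := rfl
  have h02 : hH d 0 2 = - hl d 1 2 0 := rfl
  have h10 : hH d 1 0 = - hl d 2 0 1 := rfl
  have h11 : hH d 1 1 = hl d 2 0 0 := rfl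
  have h12 : hH d 1 2 = - hl d 0 2 1 := rfl
  have h20 : hH d 2 0 = - hl d 1 0 2 := rfl
  have h21 : hH d 2 1 = - hl d 0 1 2 := rfl
  have h22 : hH d 2 2 = hl d 0 1 1 := rfl
  simp only [c0, c1, c2, h00, h01, h02, h10, h11, h12, h20, h21, h22, ee_eq]
  have g1 := hl_diag d 1 0
  have g2 := hl_diag d 2 0
  have g3 := hl_diag d 2 1
  fin_cases l
  · have z1 := hl_l d 0 0
    have z2 := hl_l d 0 1
    have z3 := hl_l d 0 2
    have z4 := hl_r hd 0 1
    have z5 := hl_r hd 0 2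
    simp only [Fin.zero_eta, Fin.isValue, z1, z2, z3, z4, z5, map_sub, map_mul]
    simp
    rw [g2]
    ring
  · have z1 := hl_l d 1 0
    have z2 := hl_l d 1 1
    have z3 := hl_l d 1 2
    have z4 := hl_r hd 1 0
    have z5 := hl_r hd 1 2
    simp only [Fin.mk_one, Fin.isValue, z1, z2, z3, z4, z5, map_sub, map_mul]
    simp
    rw [g1]
    ring
  · have z1 := hl_l d 2 0
    have z2 := hl_l d 2 1
    have z3 := hl_l d 2 2
    have z4 := hl_r hd 2 0
    have z5 := hl_r hd 2 1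
    simp only [Fin.reduceFinMk, Fin.isValue, z1, z2, z3, z4, z5, map_sub, map_mul]
    simp
    rw [g3]
    ring

theorem eqv2 (d : C3 [⋀^Fin 4]→ₗ[ℝ] ℝ) (hp : ∀ x y : C3,
      0 ≤ d ![x, Complex.I • x, y, Complex.I • y])
    (hd : ∀ v, d (fun j => Complex.I • v j) = d v) :
    ∃ (lam : Fin 3 → ℝ) (L : Fin 3 → ℕ → ((Fin 3 → ℂ) →ₗ[ℂ] ℂ)), (∀ l, 0 ≤ lam l) ∧
      ∀ v, d v = ∑ l, lam l * dL 4 (L l) v := by
  obtain ⟨lam, U, h1, h2⟩ := spec (hH d) (hH_herm hd)
  choose P Q hPQ using fun m => cr_surj (rw3 U m)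
  obtain ⟨L, hL⟩ : ∃ L : Fin 3 → ℕ → ((Fin 3 → ℂ) →ₗ[ℂ] ℂ),
      ∀ m, L m 0 = fn (P m) ∧ L m 1 = fn (Q m) :=
    ⟨fun m i => if i = 0 then fn (P m) else fn (Q m), fun m => ⟨rfl, rfl⟩⟩
  have key : ∀ (m : Fin 3) (e x y : C3), dL 4 (L m) ![e, Complex.I • e, x, y] =
      ((starRingEnd ℂ) (fn (rw3 U m) (cr e x)) * fn (rw3 U m) (cr e y)).im := by
    intro m e x y
    rw [dL4, (hL m).1, (hL m).2, cr_ident, cr_ident, hPQ]
  have hs : ∀ v, (∑ l, lam l • dL 4 (L l)) v = ∑ l, lam l * dL 4 (L l) v := by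
    intro v
    rw [Fin.sum_univ_three, Fin.sum_univ_three]
    rfl
  have hd' : d = ∑ l, lam l • dL 4 (L l) := by
    apply ext4
    intro l x y
    rw [hs]
    simp only [key]
    rw [(jb4 d hd (ee l)).eq x y]
    show (∑ j, ∑ k, (starRingEnd ℂ) (x j) * hl d l j k * y k).im = _
    rw [hl_hH hd, spec_form h1, Complex.im_sum]
    refine Finset.sum_congr rfl fun m _ => ?_
    rw [Complex.im_ofReal_mul]
  refine ⟨lam, L, fun l => ?_, fun v => ?_⟩
  · obtain ⟨x, y, hxy⟩ := cr_surj fun j => U j l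
    have h3 := hp x y
    have h5 : cr x (Complex.I • y) = Complex.I • cr x y := by
      funext m
      fin_cases m
      · show x 1 * (Complex.I * y 2) - x 2 * (Complex.I * y 1) = Complex.I * (x 1 * y 2 - x 2 * y 1)
        ring
      · show x 2 * (Complex.I * y 0) - x 0 * (Complex.I * y 2) = Complex.I * (x 2 * y 0 - x 0 * y 2)
        ring
      · show x 0 * (Complex.I * y 1) - x 1 * (Complex.I * y 0) = Complex.I * (x 0 * y 1 - x 1 * y 0)
        ring
    rw [hd', hs, Finset.sum_eq_single l] at h3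
    · rw [key, h5, hxy, map_smul, spec_unit h2] at h3
      simpa using h3
    · intro m _ hm
      rw [key, h5, hxy, map_smul, spec_unit h2]
      simp [hm]
    · simp
  · conv_lhs => rw [hd']
    exact hs v

theorem eqv : EqvStmt := by
  intro q hq a hp hu
  have hI : ∀ v, a (fun j => Complex.I • v j) = a v := hu Complex.I Complex.norm_I
  interval_cases q
  · refine ⟨1, fun _ => a (cvec (fun _ => 0) (2 * 0)), fun _ _ => 0, fun _ => hp _, fun v => ?_⟩
    rw [Fin.sum_univ_one]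
    have h1 : ∀ M : Matrix (Fin (2 * 0)) (Fin (2 * 0)) ℝ, M.det = 1 := by
      intro M
      exact Matrix.det_isEmpty (n := Fin 0) (A := M)
    rw [show v = cvec (fun _ => 0) (2 * 0) from funext fun i => i.elim0]
    exact ((mul_one _).symm.trans (congrArg (fun t => a (cvec (fun _ => 0) (2 * 0)) * t) (h1 _).symm))
  · exact eqv1 a hp hI
  · obtain ⟨lam, L, h1, h2⟩ := eqv2 a.toAlternatingMap (fun x y => by
      have h := hp fun i => if i = 0 then x else y
      have h2 : cvec (fun i => if i = 0 then x else y) (2 * 2) =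
          ![x, Complex.I • x, y, Complex.I • y] := by
        funext i
        fin_cases i <;> rfl
      rw [h2] at h
      exact h) hI
    refine ⟨3, lam, L, h1, fun v => ?_⟩
    refine (h2 v).trans ?_
    refine Finset.sum_congr rfl fun m _ => ?_
    exact congrArg (fun t => lam m * t) (dL_apply 4 (L m) v)
  · refine ⟨1, fun _ => a (stdb 3 6), fun _ => co, fun _ => hp _, fun v => ?_⟩
    refine (eqv3 a v).trans ?_
    rw [Fin.sum_univ_one]
    exact congrArg (fun t => a (stdb 3 6) * t) (dL_apply 6 co v)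

end Pool.Agent.SIQ.H18
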