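import Pool.Agent.Helper15_SIQ.Stmts

/-!
# SIQ, RDC: `dd^c` commutes with the rotation of vectors
-/

set_option autoImplicit false

open Filter Topology ContinuousAlternatingMap

namespace Pool.Agent.SIQ.H18

open Pool.Agent.SIU

/-- pull-back of forms by the multiplication by `u` -/
noncomputable def PC (N k : ℕ) (u : ℂ) : Alt N k →L[ℝ] Alt N k :=
  compContinuousLinearMapCLM (mulC N u)

theorem PC_apply (N k : ℕ) (u : ℂ) (a : Alt N k) (v : Fin k → Fin N → ℂ) :
    PC N k u a v = a (fun j => u • v j) := rfl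

theorem mulC_ap (N : ℕ) (u : ℂ) (x : Fin N → ℂ) : mulC N u x = u • x := rfl

/-- `(x, y) ↦ P (D (a x) (b y))` -/
noncomputable def GG {N k : ℕ} (D : (Fin N → ℂ) →L[ℝ] (Fin N → ℂ) →L[ℝ] Alt N k) (a b : ℂ)
    (P : Alt N k →L[ℝ] Alt N k) : (Fin N → ℂ) →L[ℝ] (Fin N → ℂ) →L[ℝ] Alt N k :=
  ((ContinuousLinearMap.compL ℝ (Fin N → ℂ) (Alt N k) (Alt N k)) P).comp
    (((ContinuousLinearMap.compL ℝ (Fin N → ℂ) (Fin N → ℂ) (Alt N k)).flip (mulC N b)).comp
      (D.comp (mulC N a)))

theorem GG_apply {N k : ℕ} (D : (Fin N → ℂ) →L[ℝ] (Fin N → ℂ) →L[ℝ] Alt N k) (a b : ℂ)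
    (P : Alt N k →L[ℝ] Alt N k) (x y : Fin N → ℂ) : GG D a b P x y = P (D (a • x) (b • y)) := rfl

/-- the double alternatisation -/
noncomputable def AA2 {N k : ℕ} (f : (Fin N → ℂ) →L[ℝ] (Fin N → ℂ) →L[ℝ] Alt N k) :
    Alt N (k + 1 + 1) :=
  alternatizeUncurryFin (alternatizeUncurryFinCLM ℝ (Fin N → ℂ) ℝ ∘L f)

theorem AA2_apply {N k : ℕ} (f : (Fin N → ℂ) →L[ℝ] (Fin N → ℂ) →L[ℝ] Alt N k)
    (v : Fin (k + 1 + 1) → Fin N → ℂ) :
    AA2 f v = ∑ i : Fin (k + 1 + 1), (-1 : ℤ) ^ (i : ℕ) • ∑ j : Fin (k + 1), (-1 : ℤ) ^ (j : ℕ) •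
      f (v i) (i.removeNth v j) (j.removeNth (i.removeNth v)) := by
  unfold AA2
  rw [alternatizeUncurryFin_apply]
  refine Finset.sum_congr rfl fun i _ => ?_
  congr 1
  rw [ContinuousLinearMap.comp_apply, alternatizeUncurryFinCLM_apply, alternatizeUncurryFin_apply]

/-- the double alternatisation depends only on the antisymmetric part -/
theorem AA2_congr {N k : ℕ} {f g : (Fin N → ℂ) →L[ℝ] (Fin N → ℂ) →L[ℝ] Alt N k}
    (h : ∀ x y, f x y - f y x = g x y - g y x) : AA2 f = AA2 g := by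
  ext v
  unfold AA2
  rw [alternatizeUncurryFin_alternatizeUncurryFinCLM_comp_apply,
    alternatizeUncurryFin_alternatizeUncurryFinCLM_comp_apply]
  refine Finset.sum_congr rfl fun i _ => Finset.sum_congr rfl fun j _ => ?_
  congr 1
  have := congrArg (fun a : Alt N k => a (j.removeNth (i.castSucc.removeNth v)))
    (h (v i.castSucc) (v j.succ))
  simpa using this

theorem fderiv_clm {E F G : Type*} [NormedAddCommGroup E] [NormedSpace ℝ E]
    [NormedAddCommGroup F] [NormedSpace ℝ F] [NormedAddCommGroup G] [NormedSpace ℝ G]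
    (L : F →L[ℝ] G) {f : E → F} {x : E} (hf : DifferentiableAt ℝ f x) :
    fderiv ℝ (fun w => L (f w)) x = L ∘L fderiv ℝ f x :=
  (L.hasFDerivAt.comp x hf.hasFDerivAt).fderiv

/-- `dd^c` in terms of the second derivative -/
theorem ddc_eq {N k : ℕ} {φ : (Fin N → ℂ) → Alt N k} {z : Fin N → ℂ} (h : ContDiffAt ℝ 2 φ z) :
    ddc φ z = - AA2 (GG (fderiv ℝ (fderiv ℝ φ) z) 1 Complex.I (PC N k Complex.I)) := by
  have h2 : DifferentiableAt ℝ (fderiv ℝ φ) z :=
    (h.fderiv_right (m := 1) (by norm_num)).differentiableAt one_ne_zero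
  unfold ddc
  congr 1
  have e1 : (fun w => (extDeriv φ w).compContinuousLinearMap (mulC N Complex.I)) =
      fun w => ((PC N (k + 1) Complex.I) ∘L (alternatizeUncurryFinCLM ℝ (Fin N → ℂ) ℝ))
        (fderiv ℝ φ w) := by
    funext w
    rfl
  have e2 : fderiv ℝ (fun w => (extDeriv φ w).compContinuousLinearMap (mulC N Complex.I)) z =
      ((PC N (k + 1) Complex.I) ∘L (alternatizeUncurryFinCLM ℝ (Fin N → ℂ) ℝ)) ∘L
        (fderiv ℝ (fderiv ℝ φ) z) := by
    rw [e1]
    exact fderiv_clm (E := Fin N → ℂ) (F := (Fin N → ℂ) →L[ℝ] Alt N k) (G := Alt N (k + 1)) _ h2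
  unfold extDeriv at e2 ⊢
  rw [e2]
  ext v
  rw [alternatizeUncurryFin_apply, AA2_apply]
  refine Finset.sum_congr rfl fun i _ => ?_
  congr 1
  rw [ContinuousLinearMap.comp_apply, ContinuousLinearMap.comp_apply, PC_apply,
    alternatizeUncurryFinCLM_apply, alternatizeUncurryFin_apply]
  refine Finset.sum_congr rfl fun j _ => ?_
  congr 1
  rw [GG_apply, PC_apply, one_smul]
  rfl

theorem rdc : RdcStmt := by
  intro N k φ z hφ u hu
  have hd : ∀ᶠ w in 𝓝 z, DifferentiableAt ℝ φ w := by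
    have := hφ.eventually (by simp)
    filter_upwards [this] with w hw
    exact hw.differentiableAt (by norm_num)
  have hφ' : ContDiffAt ℝ 2 (fun w => (φ w).compContinuousLinearMap (mulC N u)) z :=
    (PC N k u).contDiff.contDiffAt.comp z hφ
  have h2 : DifferentiableAt ℝ (fderiv ℝ φ) z :=
    (hφ.fderiv_right (m := 1) (by norm_num)).differentiableAt one_ne_zero
  have e1 : (fderiv ℝ fun w => (φ w).compContinuousLinearMap (mulC N u)) =ᶠ[𝓝 z]
      fun w => (PC N k u) ∘L (fderiv ℝ φ w) := by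
    filter_upwards [hd] with w hw
    exact ((PC N k u).hasFDerivAt.comp w hw.hasFDerivAt).fderiv
  have e2 : fderiv ℝ (fderiv ℝ fun w => (φ w).compContinuousLinearMap (mulC N u)) z =
      (ContinuousLinearMap.compL ℝ (Fin N → ℂ) (Alt N k) (Alt N k) (PC N k u)) ∘L
        (fderiv ℝ (fderiv ℝ φ) z) := by
    rw [e1.fderiv_eq]
    exact fderiv_clm (E := Fin N → ℂ) (F := (Fin N → ℂ) →L[ℝ] Alt N k)
      (G := (Fin N → ℂ) →L[ℝ] Alt N k)
      (ContinuousLinearMap.compL ℝ (Fin N → ℂ) (Alt N k) (Alt N k) (PC N k u)) h2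
  rw [ddc_eq hφ', ddc_eq hφ, e2]
  have hs : IsSymmSndFDerivAt ℝ φ z := hφ.isSymmSndFDerivAt (by simp)
  set D := fderiv ℝ (fderiv ℝ φ) z with hD
  have hs' : ∀ x y, D x y = D y x := fun x y => hs x y
  have e3 : (-AA2 (GG D 1 Complex.I (PC N k Complex.I))).compContinuousLinearMap (mulC N u) =
      - AA2 (GG D u (Complex.I * u) ((PC N k u) ∘L (PC N k Complex.I))) := by
    ext v
    show - AA2 _ (fun j => u • v j) = - AA2 _ v
    rw [AA2_apply, AA2_apply]
    congr 1
    refine Finset.sum_congr rfl fun i _ => ?_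
    congr 1
    refine Finset.sum_congr rfl fun j _ => ?_
    congr 1
    rw [GG_apply, GG_apply, ContinuousLinearMap.comp_apply, PC_apply, PC_apply, PC_apply, one_smul,
      mul_smul]
    rfl
  rw [e3]
  congr 1
  apply AA2_congr
  intro x y
  rw [GG_apply, GG_apply, GG_apply, GG_apply]
  have q1 : ∀ x y, (ContinuousLinearMap.compL ℝ (Fin N → ℂ) (Alt N k) (Alt N k) (PC N k u) ∘L D) x y
      = PC N k u (D x y) := fun x y => rfl
  rw [q1, q1]
  have q2 : ∀ a : Alt N k, PC N k Complex.I (PC N k u a) = PC N k u (PC N k Complex.I a) := by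
    intro a
    ext v
    rw [PC_apply, PC_apply, PC_apply, PC_apply]
    congr 1
    funext j
    rw [smul_smul, smul_smul, mul_comm]
  rw [q2, q2, ContinuousLinearMap.comp_apply, ContinuousLinearMap.comp_apply, ← map_sub, ← map_sub,
    ← map_sub, ← map_sub]
  congr 2
  rw [one_smul, one_smul]
  have hu2 : u.re ^ 2 + u.im ^ 2 = 1 := by
    have := Complex.sq_norm u
    rw [hu, Complex.normSq_apply] at this
    nlinarith [this]
  have s1 : ∀ w : Fin N → ℂ, u • w = u.re • w + u.im • (Complex.I • w) := by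
    intro w
    funext m
    show u * w m = u.re • w m + u.im • (Complex.I • w m)
    rw [Complex.real_smul, Complex.real_smul, smul_eq_mul]
    conv_lhs => rw [← Complex.re_add_im u]
    ring
  have s2 : ∀ w : Fin N → ℂ, (Complex.I * u) • w = u.re • (Complex.I • w) + (- u.im) • w := by
    intro w
    funext m
    show Complex.I * u * w m = u.re • (Complex.I • w m) + (- u.im) • w m
    rw [Complex.real_smul, Complex.real_smul, smul_eq_mul]
    conv_lhs => rw [← Complex.re_add_im u]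
    push_cast
    linear_combination (u.im : ℂ) * w m * Complex.I_mul_I
  rw [s1 x, s1 y, s2 x, s2 y]
  simp only [map_add, map_smul, _root_.add_apply, _root_.smul_apply]
  rw [hs' y (Complex.I • x), hs' (Complex.I • y) (Complex.I • x), hs' y x, hs' (Complex.I • y) x]
  trans (u.re ^ 2 + u.im ^ 2) • ((D x) (Complex.I • y) - (D (Complex.I • x)) y)
  · rw [hu2, one_smul]
  · module
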